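import Mathlib
import Pool.Agent.H481R3.SP2

set_option autoImplicit false

/-!
# Spectral permanence does not imply being a cortex algebra

The example is the algebra of all continuous functions `f` on `[0, 1] × D` (`D` the closed unit
disc) such that every `f (t, ·)` is holomorphic in the open disc and `f (0, ·)` is constant.
-/

namespace Pool.Agent.Results.MP_6331ea_an.PermanenceNotCortex

open Topology Pool.Agent.H481R3.SP

universe u v

/-- Spectral permanence: for every commutative unital Banach algebra `B` and every unital
homomorphism `j : A → B` which is a homeomorphism onto its image (in particular, whenever `A` is a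
closed subalgebra of `B`), the spectrum of `j x` in `B` is the spectrum of `x` in `A`. -/
def HasSpectralPermanence (A : Type u) [NormedCommRing A] [NormedAlgebra ℂ A] : Prop :=
  ∀ (B : Type v) [NormedCommRing B] [NormedAlgebra ℂ B] [CompleteSpace B] (j : A →ₐ[ℂ] B),
    IsEmbedding j → ∀ x : A, spectrum ℂ (j x) = spectrum ℂ x

/-- Cortex algebra: every character of `A` extends to a character of every commutative unital
Banach algebra `B` containing `A` isometrically as a closed subalgebra. -/
def IsCortexAlgebra (A : Type u) [NormedCommRing A] [NormedAlgebra ℂ A] : Prop :=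
  ∀ (φ : A →ₐ[ℂ] ℂ) (B : Type u) [NormedCommRing B] [NormedAlgebra ℂ B] [CompleteSpace B]
    (j : A →ₐ[ℂ] B), Isometry j → ∃ ψ : B →ₐ[ℂ] ℂ, ψ.comp j = φ

/-- There is a commutative unital Banach algebra with the spectral permanence property that is not a
cortex algebra. -/
theorem result : ∃ (A : Type) (_ : NormedCommRing A) (_ : NormedAlgebra ℂ A),
    CompleteSpace A ∧ ‖(1 : A)‖ = 1 ∧ HasSpectralPermanence.{0, v} A ∧ ¬ IsCortexAlgebra A := by
  refine ⟨AA, inferInstance, inferInstance, inferInstance, ?_, ?_, ?_⟩
  · change ‖(1 : C(K, ℂ))‖ = 1
    exact norm_one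
  · intro B _ _ _ j hj x
    exact perm_of_small exists_small j hj x
  · intro h
    obtain ⟨ψ, hψ⟩ := h ev0 C(Lb, ℂ) res isometry_res
    exact no_extension ψ hψ

end Pool.Agent.Results.MP_6331ea_an.PermanenceNotCortex
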